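import Mathlib

/-! Existence of the critical point. -/

namespace Pool.Agent.FKH

/-- DHL TASK Crit. Existence of the critical point.
PROOF. On `(0,1)` consider the continuous function
`g t = (1+t)(1-t^b)^r - (1-t)(1+t^b)^r`; a zero in `(0,1)` is a solution.
(1) `g t₀ > 0` for some small `t₀`: e.g. `t₀ = 1/(4r)`. As `t^b ≤ t²`, it is enough that
`(1+t)(1-t²)^r > (1-t)(1+t²)^r`. Bernoulli: `(1-t²)^r ≥ 1 - r t²`
(`one_add_mul_le_pow`), and `(1+t²)^r ≤ 1/(1 - r t²)` (as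
`(1 - r t²)(1+t²)^r ≤ (1-t²)^r (1+t²)^r = (1-t⁴)^r ≤ 1`). So it is enough that
`(1+t)(1 - r t²)² > 1 - t`; with `r t = 1/4`: `1 - r t² = 1 - t/4`,
`(1+t)(1 - t/4)² ≥ (1+t)(1 - t/2) > 1 - t`.
(2) `g t₁ < 0` for some `t₁ < 1` close to `1`: `1 - t^b ≤ b (1-t)` (Bernoulli), so
`(1+t)(1-t^b)^r ≤ 2 b² (1-t)²` once `b(1-t) ≤ 1` (`r ≥ 2`), and `(1-t)(1+t^b)^r ≥ (1-t)`. So
`1 - t₁ = 1/(4 b²)` works: `2 b² (1-t)² = (1-t)/2 < 1-t`.
(3) intermediate value theorem on `[t₀, t₁]` (`t₀ < t₁` as `t₀ ≤ 1/8`, `t₁ ≥ 15/16`). -/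
lemma exists_crit {b r : ℕ} (hb : 2 ≤ b) (hr : 2 ≤ r) :
    ∃ t : ℝ, 0 < t ∧ t < 1 ∧ (1 + t) / (1 - t) = ((1 + t ^ b) / (1 - t ^ b)) ^ r := by
  have hb0 : (2 : ℝ) ≤ b := by exact_mod_cast hb
  have hr0 : (2 : ℝ) ≤ r := by exact_mod_cast hr
  obtain ⟨g, hg⟩ : ∃ g : ℝ → ℝ, ∀ t, g t = (1 + t) * (1 - t ^ b) ^ r - (1 - t) * (1 + t ^ b) ^ r :=
    ⟨_, fun _ => rfl⟩
  have hcont : Continuous g := by
    have e : g = fun t => (1 + t) * (1 - t ^ b) ^ r - (1 - t) * (1 + t ^ b) ^ r := funext hg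
    rw [e]
    fun_prop
  obtain ⟨t0, ht0⟩ : ∃ t0 : ℝ, t0 = 1 / (4 * r) := ⟨_, rfl⟩
  obtain ⟨ε, hε⟩ : ∃ ε : ℝ, ε = 1 / (4 * (b : ℝ) ^ 2) := ⟨_, rfl⟩
  have hrt : (r : ℝ) * t0 = 1 / 4 := by
    rw [ht0]
    field_simp
  have ht0p : 0 < t0 := by
    rw [ht0]
    positivity
  have ht08 : t0 ≤ 1 / 8 := by
    rw [ht0, div_le_div_iff₀ (by positivity) (by norm_num)]
    linarith
  have hεp : 0 < ε := by
    rw [hε]
    positivity
  have hbε : (b : ℝ) ^ 2 * ε = 1 / 4 := by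
    rw [hε]
    field_simp
  have hε16 : ε ≤ 1 / 16 := by
    rw [hε, div_le_div_iff₀ (by positivity) (by norm_num)]
    nlinarith
  have h1 : 0 < g t0 := by
    rw [hg]
    obtain ⟨q, hq⟩ : ∃ q : ℝ, q = t0 ^ 2 := ⟨_, rfl⟩
    have hq0 : 0 < q := by
      rw [hq]
      positivity
    have hq1 : q ≤ 1 := by
      rw [hq]
      nlinarith
    have hrq : (r : ℝ) * q = t0 / 4 := by
      rw [hq, pow_two, ← mul_assoc, hrt]
      ring
    have htb : t0 ^ b ≤ q := by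
      rw [hq]
      exact pow_le_pow_of_le_one ht0p.le (by linarith) hb
    have htb0 : 0 ≤ t0 ^ b := by positivity
    have h2 : 1 - r * q ≤ (1 - q) ^ r := by
      have h3 := one_add_mul_le_pow (a := -q) (by linarith) r
      have h4 : 1 + (r : ℝ) * -q = 1 - r * q := by ring
      have h5 : 1 + -q = 1 - q := by ring
      rw [h4, h5] at h3
      exact h3
    have h3 : (1 - q) ^ r ≤ (1 - t0 ^ b) ^ r := pow_le_pow_left₀ (by linarith) (by linarith) r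
    have h4 : (1 + t0 ^ b) ^ r ≤ (1 + q) ^ r := pow_le_pow_left₀ (by linarith) (by linarith) r
    have h5 : (1 - r * q) * (1 + q) ^ r ≤ 1 := by
      have h6 : (1 - r * q) * (1 + q) ^ r ≤ (1 - q) ^ r * (1 + q) ^ r :=
        mul_le_mul_of_nonneg_right h2 (by positivity)
      have h7 : (1 - q) ^ r * (1 + q) ^ r = (1 - q ^ 2) ^ r := by
        rw [← mul_pow]
        congr 1
        ring
      have h8 : (1 - q ^ 2) ^ r ≤ 1 := pow_le_one₀ (by nlinarith) (by nlinarith)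
      linarith
    rw [hrq] at h2 h5
    have hP : 0 < 1 - t0 / 4 := by linarith
    obtain ⟨P, hPd⟩ : ∃ P : ℝ, P = (1 + q) ^ r := ⟨_, rfl⟩
    rw [← hPd] at h4 h5
    have h9 : (1 - t0) * P < (1 + t0) * (1 - t0 / 4) := by
      have h10 : (1 - t0) * P * (1 - t0 / 4) < (1 + t0) * (1 - t0 / 4) * (1 - t0 / 4) := by
        have h11 : (1 - t0) * ((1 - t0 / 4) * P) ≤ (1 - t0) * 1 :=
          mul_le_mul_of_nonneg_left h5 (by linarith)
        have h12 : 1 - t0 < (1 + t0) * (1 - t0 / 4) * (1 - t0 / 4) := by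
          nlinarith [mul_pos ht0p ht0p, mul_pos (mul_pos ht0p ht0p) ht0p]
        nlinarith
      exact lt_of_mul_lt_mul_right h10 hP.le
    have h13 : (1 + t0) * (1 - t0 / 4) ≤ (1 + t0) * (1 - t0 ^ b) ^ r :=
      mul_le_mul_of_nonneg_left (h2.trans h3) (by linarith)
    have h14 : (1 - t0) * (1 + t0 ^ b) ^ r ≤ (1 - t0) * P :=
      mul_le_mul_of_nonneg_left h4 (by linarith)
    linarith
  have h2 : g (1 - ε) < 0 := by
    rw [hg]
    have ht0' : 0 ≤ 1 - ε := by linarith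
    have h3 : 1 - (b : ℝ) * ε ≤ (1 - ε) ^ b := by
      have h4 := one_add_mul_le_pow (a := -ε) (by linarith) b
      have h5 : 1 + (b : ℝ) * -ε = 1 - b * ε := by ring
      have h6 : 1 + -ε = 1 - ε := by ring
      rw [h5, h6] at h4
      exact h4
    have hp1 : (1 - ε) ^ b ≤ 1 := pow_le_one₀ ht0' (by linarith)
    have hp0 : 0 ≤ (1 - ε) ^ b := pow_nonneg ht0' b
    have hbe1 : (b : ℝ) * ε ≤ 1 := by nlinarith
    have hbe0 : 0 ≤ (b : ℝ) * ε := by positivity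
    have h7 : (1 - (1 - ε) ^ b) ^ r ≤ (b * ε) ^ 2 := by
      have h8 : (1 - (1 - ε) ^ b) ^ r ≤ (b * ε) ^ r :=
        pow_le_pow_left₀ (by linarith) (by linarith) r
      exact h8.trans (pow_le_pow_of_le_one hbe0 hbe1 hr)
    have h9 : (b * ε) ^ 2 = ε / 4 := by
      have : (b * ε) ^ 2 = (b : ℝ) ^ 2 * ε * ε := by ring
      rw [this, hbε]
      ring
    rw [h9] at h7
    have h10 : (1 : ℝ) ≤ (1 + (1 - ε) ^ b) ^ r := one_le_pow₀ (by linarith)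
    have h11 : (1 + (1 - ε)) * (1 - (1 - ε) ^ b) ^ r ≤ (1 + (1 - ε)) * (ε / 4) :=
      mul_le_mul_of_nonneg_left h7 (by linarith)
    have h12 : (1 - (1 - ε)) * 1 ≤ (1 - (1 - ε)) * (1 + (1 - ε) ^ b) ^ r :=
      mul_le_mul_of_nonneg_left h10 (by linarith)
    nlinarith
  have hle : t0 ≤ 1 - ε := by linarith
  obtain ⟨t, ht, hgt⟩ := intermediate_value_Icc' hle hcont.continuousOn
    (show (0 : ℝ) ∈ Set.Icc (g (1 - ε)) (g t0) from ⟨h2.le, h1.le⟩)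
  have htp : 0 < t := lt_of_lt_of_le ht0p ht.1
  have ht1 : t < 1 := by linarith [ht.2]
  refine ⟨t, htp, ht1, ?_⟩
  have htb : t ^ b < 1 := pow_lt_one₀ htp.le ht1 (by omega)
  rw [div_pow, div_eq_div_iff (by linarith) (pow_ne_zero _ (by linarith))]
  rw [hg] at hgt
  linarith

end Pool.Agent.FKH
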