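import Pool.Agent.Lib.MP_a14fda_pr.FKH.Defs

/-! The diamond hierarchical lattices. -/

namespace Pool.Agent.FKH

/-- The vertex number `k` of the chain of `b` edges: the terminals for `k = 0` and `k = b`, an
interior vertex for `0 < k < b`. -/
def node (b k : ℕ) : Bool ⊕ {j : Fin b // 0 < (j : ℕ)} :=
  if h : 0 < k ∧ k < b then Sum.inr ⟨⟨k, h.2⟩, h.1⟩ else Sum.inl (decide (0 < k))

/-- The chain of `b` edges in series. -/
def chain (b : ℕ) : Net {j : Fin b // 0 < (j : ℕ)} (Fin b) where
  ends e := (node b e, node b (e + 1))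

/-- The bundle of `r` parallel edges. -/
def bundle (r : ℕ) : Net Empty (Fin r) where
  ends _ := (Sum.inl false, Sum.inl true)

/-- The diamond: `r` parallel chains of `b` edges between the terminals. -/
def diamond (b r : ℕ) : Net (Empty ⊕ Fin r × {j : Fin b // 0 < (j : ℕ)}) (Fin (r * b)) where
  ends e := ((bundle r).subst (chain b)).ends (finProdFinEquiv.symm e)

end Pool.Agent.FKH
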