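import Mathlib

/-! Linear algebra for the pair (wired, free). -/

namespace Pool.Agent.FKH

/-- DHL TASK Vec1. Pure algebra.
PROOF. `g = 1 - f' > 0`, `h = 1 - F' > 0` (with `f' = f * d̂`, `F' = F * d`), `e * E < g * h`.
Let `δ = (g h - e E) / (2 (E + 1)) > 0` and `y = (e + δ) / g > 0`. Then `e + f' y < y` and
`E y < h` (as `E (e + δ) ≤ e E + (g h - e E)/2 < g h`). Put
`θ = max ((e + f' y)/y) (F' + E y) < 1`; it is positive since `f' > 0`. Take
`W true = 1`, `W false = dh * y`, `V true = d`, `V false = e + f' y`.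
Claims: `F d + E (e + f' y) ≤ F' + E θ y ≤ F' + E y ≤ θ`; `dh (e + f' y) ≤ dh θ y`;
`d * 1 ≤ d`; `e * 1 + f * (dh y) ≤ e + f' y`. -/
lemma exists_vec_alg {d dh e E f F : ℝ} (hd : 0 < d) (hdh : 0 < dh) (he : 0 ≤ e) (hE : 0 ≤ E)
    (hf : 0 < f) (hF : 0 < F) (h1 : f * dh < 1) (h2 : F * d < 1)
    (h3 : e * E < (1 - f * dh) * (1 - F * d)) :
    ∃ (V W : Bool → ℝ) (θ : ℝ), 0 < θ ∧ θ < 1 ∧ (∀ τ, 0 < V τ) ∧ (∀ τ, 0 < W τ) ∧
      (F * V true + E * V false ≤ θ * W true ∧ dh * V false ≤ θ * W false) ∧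
      (d * W true ≤ V true ∧ e * W true + f * W false ≤ V false) := by
  obtain ⟨g, hg⟩ : ∃ g, g = 1 - f * dh := ⟨_, rfl⟩
  obtain ⟨h, hh⟩ : ∃ h, h = 1 - F * d := ⟨_, rfl⟩
  have hg0 : 0 < g := by linarith
  have hh0 : 0 < h := by linarith
  rw [← hg, ← hh] at h3
  obtain ⟨δ, hδ⟩ : ∃ δ, δ = (g * h - e * E) / (2 * (E + 1)) := ⟨_, rfl⟩
  have hE1 : 0 < 2 * (E + 1) := by linarith
  have hδ0 : 0 < δ := by
    rw [hδ]
    exact div_pos (by linarith) hE1
  have hδ1 : δ * (2 * (E + 1)) = g * h - e * E := by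
    rw [hδ]
    field_simp
  obtain ⟨y, hy⟩ : ∃ y, y = (e + δ) / g := ⟨_, rfl⟩
  have hgy : g * y = e + δ := by
    rw [hy]
    field_simp
  have hy0 : 0 < y := by
    rw [hy]
    exact div_pos (by linarith) hg0
  have hfd : 0 < f * dh := mul_pos hf hdh
  have hFd : 0 < F * d := mul_pos hF hd
  have hv : e + f * dh * y = y - δ := by
    have : f * dh = 1 - g := by linarith
    rw [this]
    linarith
  have hEy : E * y < h := by
    have h5 : g * (E * y) < g * h := by
      have : g * (E * y) = E * (e + δ) := by rw [← hgy]; ring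
      rw [this]
      nlinarith
    exact lt_of_mul_lt_mul_left h5 hg0.le
  have hvpos : 0 < y - δ := by
    rw [← hv]
    have : 0 < f * dh * y := mul_pos hfd hy0
    linarith
  refine ⟨fun b => if b then d else y - δ, fun b => if b then 1 else dh * y,
    max ((y - δ) / y) (F * d + E * y), ?_, ?_, ?_, ?_, ⟨?_, ?_⟩, ?_, ?_⟩
  · refine lt_max_of_lt_right ?_
    have : 0 ≤ E * y := mul_nonneg hE hy0.le
    linarith
  · refine max_lt ?_ ?_
    · rw [div_lt_one hy0]
      linarith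
    · linarith
  · intro b
    cases b <;> simp [hd, hvpos]
  · intro b
    cases b
    · simpa using mul_pos hdh hy0
    · simp
  · have h6 : F * d + E * y ≤ max ((y - δ) / y) (F * d + E * y) := le_max_right _ _
    have h7 : E * (y - δ) ≤ E * y := mul_le_mul_of_nonneg_left (by linarith) hE
    simp only [if_true, Bool.false_eq_true, if_false, mul_one]
    linarith
  · simp only [Bool.false_eq_true, if_false]
    have h6 : (y - δ) / y ≤ max ((y - δ) / y) (F * d + E * y) := le_max_left _ _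
    rw [div_le_iff₀ hy0] at h6
    have h7 := mul_le_mul_of_nonneg_left h6 hdh.le
    linarith
  · simp
  · simp only [if_true, Bool.false_eq_true, if_false, mul_one]
    rw [← hv]
    linarith

end Pool.Agent.FKH
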