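import Pool.Agent.Lib.MP_a14fda_pr.Mg.G001
import Pool.Agent.Lib.MP_a14fda_pr.Mg.G003
import Pool.Agent.Lib.MP_a14fda_pr.Mg.G004

/-! The block inequality at all levels of a diamond lattice. -/

open Finset

namespace Pool.Agent.FKH

/-- Exponential decay of the integrated autocorrelation of the crossings of the lattice. -/
structure Decay {I : Type} [Finite I] {k : ℕ} (H : Net I (Fin k)) (p q θ C : ℝ) : Prop where
  hk : 0 < k
  hp0 : 0 < p
  hp1 : p < 1
  hq : 0 < q
  hθ : 0 ≤ θ
  hC : 0 ≤ C
  pos : ∀ j, 0 < aval ((H.lattice j).uw p q) (H.lattice j).bit false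
  fix : ∀ j, aval ((H.lattice j).uw p q) (H.lattice j).bit true =
    p / (1 - p) * aval ((H.lattice j).uw p q) (H.lattice j).bit false
  cert : ∀ j, BH q (C * θ ^ j) ((H.lattice j).uw p q) (H.lattice j).bit
    (aval ((H.lattice j).uw p q) (H.lattice j).bit)

/-- The block inequality at level `0`. -/
lemma BH2_zero {I E : Type} [Fintype E] [DecidableEq E] [Finite I] (H : Net I E) {p q : ℝ}
    (hp0 : 0 < p) (hp1 : p < 1) (hq : 0 < q) :
    BH2 q (fun _ => 1) ((H.lattice 0).uw p q) (H.lattice 0).bit
      (aval ((H.lattice 0).uw p q) (H.lattice 0).bit) := by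
  intro τ g
  have h1 := BH_zero H hp0 hp1 hq (rho q τ) (by cases τ <;> simp [rho]) g
  exact h1

/-- All levels of the diamond lattice at a fixed point. -/
lemma diamond_levels {m n : ℕ} {p q u v : ℝ} (hp0 : 0 < p) (hp1 : p < 1) (hq : 0 < q)
    (hu : 0 < u) (hv : 0 < v) (hx : v * (p / (1 - p)) = q) (hK1 : v * KK n u = q)
    (hK2 : u * KK m v = q) {V W : Bool → ℝ} {θ C : ℝ} (hθ : 0 < θ) (hC : 0 < C)
    (hV : ∀ τ, 0 < V τ) (hW : ∀ τ, 0 < W τ) (hCV : ∀ τ, 1 ≤ C * V τ)
    (hser : ∀ τ, serX q m v V τ ≤ θ * W τ) (hpar : ∀ τ, parX q n u W τ ≤ V τ) (j : ℕ) :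
    0 < aval (((diamond (m + 1) (n + 1)).lattice j).uw p q)
        ((diamond (m + 1) (n + 1)).lattice j).bit false ∧
    aval (((diamond (m + 1) (n + 1)).lattice j).uw p q)
        ((diamond (m + 1) (n + 1)).lattice j).bit true =
      p / (1 - p) * aval (((diamond (m + 1) (n + 1)).lattice j).uw p q)
        ((diamond (m + 1) (n + 1)).lattice j).bit false ∧
    BH2 q (fun τ => C * θ ^ j * V τ) (((diamond (m + 1) (n + 1)).lattice j).uw p q)
      ((diamond (m + 1) (n + 1)).lattice j).bit
      (aval (((diamond (m + 1) (n + 1)).lattice j).uw p q)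
        ((diamond (m + 1) (n + 1)).lattice j).bit) := by
  have hp1' : 0 < 1 - p := by linarith
  have hx0 : 0 < p / (1 - p) := div_pos hp0 hp1'
  have hKn := KK_pos (n := n) hu
  have hKm := KK_pos (n := m) hv
  have hKx : KK n u = p / (1 - p) := by
    have : v * KK n u = v * (p / (1 - p)) := by rw [hK1, hx]
    exact mul_left_cancel₀ hv.ne' this
  have hKu : q⁻¹ * KK m v * u = 1 := by
    rw [mul_assoc, mul_comm (KK m v), hK2, inv_mul_cancel₀ hq.ne']
  set D := diamond (m + 1) (n + 1) with hD
  induction j with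
  | zero =>
    refine ⟨?_, ?_, ?_⟩
    · rw [aval_zero D p hq]
      simpa using hp1
    · rw [aval_zero D p hq, aval_zero D p hq]
      simp only [if_true, Bool.false_eq_true, if_false]
      field_simp
    · refine (BH2_zero D hp0 hp1 hq).mono hq (fun z => Net.uw_pos _ hp0 hp1 hq z) fun τ => ?_
      simpa using hCV τ
  | succ j ih =>
    obtain ⟨h1, h2, h3⟩ := ih
    set G := D.lattice j with hG
    have hA0 : ∀ b, 0 < aval (G.uw p q) G.bit b := by
      intro b
      cases b
      · exact h1
      · rw [h2]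
        positivity
    have hAv : v * aval (G.uw p q) G.bit true = q * aval (G.uw p q) G.bit false := by
      rw [h2, ← mul_assoc, hx]
    have hX : ∀ τ, 0 < C * θ ^ j * V τ := fun τ =>
      mul_pos (mul_pos hC (pow_pos hθ j)) (hV τ)
    -- series
    have s1 := ser_odds G hq m hA0 hAv
    have s2 := ser_BH2 G hp0 hp1 hq hv m hA0 hAv hX h3
    set S := (chain (m + 1)).subst G with hS
    set a := aval (G.uw p q) G.bit true ^ (m + 1) with ha
    have ha0 : 0 < a := pow_pos (hA0 _) _
    have hSf : 0 < aval (S.uw p q) S.bit false := by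
      rw [s1]
      simp only [Bool.false_eq_true, if_false]
      positivity
    have hSu : aval (S.uw p q) S.bit true = u * aval (S.uw p q) S.bit false := by
      rw [s1, s1]
      simp only [Bool.false_eq_true, if_false, if_true]
      linear_combination (-a) * hKu
    have hlin : ∀ τ, serX q m v (fun τ => C * θ ^ j * V τ) τ = C * θ ^ j * serX q m v V τ := by
      intro τ
      cases τ
      · simp only [serX]
        ring
      · simp only [serX]
        ring
    have s3 : BH2 q (fun τ => C * θ ^ (j + 1) * W τ) (S.uw p q) S.bit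
        (aval (S.uw p q) S.bit) := by
      refine s2.mono hq (fun z => Net.uw_pos _ hp0 hp1 hq z) fun τ => ?_
      rw [hlin]
      calc C * θ ^ j * serX q m v V τ ≤ C * θ ^ j * (θ * W τ) :=
            mul_le_mul_of_nonneg_left (hser τ) (by positivity)
        _ = _ := by ring
    have hY : ∀ τ, 0 < C * θ ^ (j + 1) * W τ := fun τ =>
      mul_pos (mul_pos hC (pow_pos hθ _)) (hW τ)
    -- parallel
    have p1 := par_odds S hq hu n hSf hSu
    have p2 := par_BH2 S hp0 hp1 hq hu n hSf hSu hY s3
    have hlin2 : ∀ τ, parX q n u (fun τ => C * θ ^ (j + 1) * W τ) τ =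
        C * θ ^ (j + 1) * parX q n u W τ := by
      intro τ
      cases τ
      · simp only [parX]
        ring
      · simp only [parX]
        ring
    have p3 : BH2 q (fun τ => C * θ ^ (j + 1) * V τ) (((bundle (n + 1)).subst S).uw p q)
        ((bundle (n + 1)).subst S).bit
        (aval (((bundle (n + 1)).subst S).uw p q) ((bundle (n + 1)).subst S).bit) := by
      refine p2.mono hq (fun z => Net.uw_pos _ hp0 hp1 hq z) fun τ => ?_
      rw [hlin2]
      exact mul_le_mul_of_nonneg_left (hpar τ) (by positivity)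
    have hav : ∀ β, aval ((D.subst G).uw p q) (D.subst G).bit β =
        aval (((bundle (n + 1)).subst S).uw p q) ((bundle (n + 1)).subst S).bit β :=
      fun β => diamond_aval (b := m + 1) (r := n + 1) (by omega) (by omega) G p hq β
    refine ⟨?_, ?_, ?_⟩
    · have h4 := hav false
      rw [p1] at h4
      simp only [Bool.false_eq_true, if_false, mul_one] at h4
      show 0 < aval ((D.subst G).uw p q) (D.subst G).bit false
      rw [h4]
      exact pow_pos hSf _
    · have h4 := hav false
      have h5 := hav true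
      rw [p1] at h4 h5
      simp only [Bool.false_eq_true, if_false, mul_one, if_true] at h4 h5
      show aval ((D.subst G).uw p q) (D.subst G).bit true =
        p / (1 - p) * aval ((D.subst G).uw p q) (D.subst G).bit false
      rw [h4, h5, hKx]
      ring
    · exact diamond_BH2 (b := m + 1) (r := n + 1) (by omega) (by omega) G hq p3

/-- The critical FK-Ising model on the diamond lattices has exponential decay. -/
theorem diamond_decay {m n : ℕ} (hm : 1 ≤ m) (hn : 1 ≤ n) {p : ℝ} (hp0 : 0 < p) (hp1 : p < 1)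
    (hc : (1 + p / (2 - p)) / (1 - p / (2 - p)) =
      ((1 + (p / (2 - p)) ^ (m + 1)) / (1 - (p / (2 - p)) ^ (m + 1))) ^ (n + 1)) :
    ∃ θ C : ℝ, θ < 1 ∧ Decay (diamond (m + 1) (n + 1)) p 2 θ C := by
  have hp1' : 0 < 1 - p := by linarith
  set t := p / (2 - p) with ht
  have h2p : 0 < 2 - p := by linarith
  have ht0 : 0 < t := div_pos hp0 h2p
  have ht1 : t < 1 := by
    rw [ht, div_lt_one h2p]
    linarith
  have htm1 : t ^ (m + 1) < 1 := pow_lt_one₀ ht0.le ht1 (by omega)
  have htm0 : 0 < t ^ (m + 1) := pow_pos ht0 _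
  set v := 2 / (p / (1 - p)) with hv
  set u := 2 * t ^ (m + 1) / (1 - t ^ (m + 1)) with hu
  have hx0 : 0 < p / (1 - p) := div_pos hp0 hp1'
  have hv0 : 0 < v := div_pos two_pos hx0
  have h1t : 0 < 1 - t ^ (m + 1) := by linarith
  have hu0 : 0 < u := by positivity
  have hvx : v * (p / (1 - p)) = 2 := by
    rw [hv]
    field_simp
  have hut : 1 + u = (1 + t ^ (m + 1)) / (1 - t ^ (m + 1)) := by
    rw [hu]
    field_simp
    ring
  have hxt : (1 + t) / (1 - t) = 1 + p / (1 - p) := by
    have h1t' : 1 - t ≠ 0 := by linarith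
    rw [div_eq_iff h1t']
    rw [ht]
    field_simp
    ring
  have hKn : KK n u = p / (1 - p) := by
    unfold KK
    rw [hut, ← hc, hxt]
    ring
  have hvt : 1 + v = t⁻¹ := by
    rw [hv, ht]
    field_simp
    ring
  have hKm : u * KK m v = 2 := by
    unfold KK
    rw [hvt, hu, inv_pow]
    field_simp
  have hK1 : v * KK n u = 2 := by rw [hKn, hvx]
  obtain ⟨V, W, θ, hθ0, hθ1, hV, hW, hser, hpar⟩ := exists_vec hm hn hu0 hv0 hK1 hKm
  set C := 1 / V true + 1 / V false with hC
  have hVt := hV true
  have hVf := hV false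
  have hC0 : 0 < C := by positivity
  have hCV : ∀ τ, 1 ≤ C * V τ := by
    intro τ
    cases τ
    · rw [hC, add_mul, div_mul_cancel₀ _ hVf.ne']
      have : 0 < 1 / V true * V false := by positivity
      linarith
    · rw [hC, add_mul, div_mul_cancel₀ _ hVt.ne']
      have : 0 < 1 / V false * V true := by positivity
      linarith
  have hlev := diamond_levels hp0 hp1 two_pos hu0 hv0 hvx hK1 hKm hθ0 hC0 hV hW hCV hser hpar
  refine ⟨θ, C * (V true + V false), hθ1, ⟨Nat.mul_pos (by omega) (by omega), hp0, hp1, two_pos,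
    hθ0.le, by positivity, fun j => (hlev j).1, fun j => (hlev j).2.1, fun j => ?_⟩⟩
  refine (hlev j).2.2.toBH two_pos (fun z => Net.uw_pos _ hp0 hp1 two_pos z) fun τ => ?_
  have hθj : 0 < θ ^ j := pow_pos hθ0 j
  cases τ
  · have : C * θ ^ j * V false ≤ C * θ ^ j * (V true + V false) :=
      mul_le_mul_of_nonneg_left (by linarith) (by positivity)
    calc _ ≤ C * θ ^ j * (V true + V false) := this
      _ = _ := by ring
  · have : C * θ ^ j * V true ≤ C * θ ^ j * (V true + V false) :=
      mul_le_mul_of_nonneg_left (by linarith) (by positivity)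
    calc _ ≤ C * θ ^ j * (V true + V false) := this
      _ = _ := by ring

end Pool.Agent.FKH
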