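import Pool.Agent.Lib.MP_a14fda_pr.DHL.Levels
import Pool.Agent.Lib.MP_a14fda_pr.FKH.Sens

/-! Noise sensitivity from the decay of the integrated autocorrelation. -/

open Finset

namespace Pool.Agent.FKH

section tower

variable {I : Type} [Finite I] {n : ℕ} {H : Net I (Fin (n + 1))} {p q θ C : ℝ}

lemma Decay.x_pos (hc : Decay H p q θ C) : 0 < p / (1 - p) :=
  div_pos hc.hp0 (by linarith [hc.hp1])

lemma Decay.A_pos (hc : Decay H p q θ C) (k : ℕ) (b : Bool) :
    0 < aval ((H.lattice k).uw p q) (H.lattice k).bit b := by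
  cases b
  · exact hc.pos k
  · rw [hc.fix k]
    exact mul_pos hc.x_pos (hc.pos k)

lemma Decay.vb_pos' (hc : Decay H p q θ C) (b : Bool) :
    0 < aval (H.vb (p / (1 - p)) q) H.bit b := by
  have h1 := hc.A_pos 1 b
  have h2 := aval_subst H (H.lattice 0) p hc.hq (hc.A_pos 0) b
  have h3 : (∑ c, if H.bit c = b then H.wb q c *
      ∏ j, aval ((H.lattice 0).uw p q) (H.lattice 0).bit (c j) else 0) =
      aval (fun c => H.wb q c * ∏ j, aval ((H.lattice 0).uw p q) (H.lattice 0).bit (c j))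
        H.bit b := rfl
  rw [h3, vb_scale H (p / (1 - p)) q _ (hc.fix 0), aval_smul] at h2
  have h4 : 0 < aval ((H.subst (H.lattice 0)).uw p q) (H.subst (H.lattice 0)).bit b := h1
  rw [h2] at h4
  exact (pos_iff_pos_of_mul_pos h4).mp (pow_pos (hc.pos 0) _)

lemma HM_topD (hc : Decay H p q θ C) (N : ℕ) :
    HM (H.lattice N) p q (H.lattice N).cross √(C * θ ^ N) := by
  have h1 := hc.pos N
  have h2 := hc.fix N
  have h3 := hc.cert N
  have hp0 := hc.hp0
  have hp1 := hc.hp1
  have hq := hc.hq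
  set G := H.lattice N with hG
  set u := G.uw p q
  set A := aval u G.bit with hA
  have hA1 : 0 < A true := by
    rw [h2]
    have : 0 < 1 - p := by linarith
    positivity
  set ρ := q⁻¹ with hρ
  have hρ0 : 0 < ρ := inv_pos.mpr hq
  intro h
  have h4 := h3 ρ (Or.inr rfl) h
  have hZ : ∑ z, bw u G.bit ρ z = A false + ρ * A true := by
    rw [hA]
    simp only [aval, mul_sum, ← sum_add_distrib]
    refine sum_congr rfl fun z _ => ?_
    unfold bw
    cases G.bit z <;> simp [mul_comm]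
  have hZ0 : 0 < A false + ρ * A true := by positivity
  have hE : ∀ b : Bool, ∑ z, kern u G.bit A b z * h z =
      (∑ z, (if G.bit z = b then u z else 0) * h z) / A b := by
    intro b
    rw [sum_div]
    refine sum_congr rfl fun z _ => ?_
    rw [kern]
    ring
  set S1 := ∑ z, (if G.bit z = true then u z else 0) * h z with hS1
  set S0 := ∑ z, (if G.bit z = false then u z else 0) * h z with hS0
  have hj : jump u G.bit A h = S1 / A true - S0 / A false := by
    unfold jump
    simp only [sub_mul, sum_sub_distrib]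
    rw [hE, hE]
  have hfk : ∀ ω, G.fk p q ω = (A false + ρ * A true)⁻¹ *
      (u ω * if G.bit ω = true then ρ else 1) := by
    intro ω
    rw [fk_eq G p hq, ← hZ]
    rfl
  have e1 : ∑ ω, G.fk p q ω * (G.cross ω * h ω) = ρ * S1 / (A false + ρ * A true) := by
    simp only [hfk]
    rw [hS1, mul_sum, sum_div]
    refine sum_congr rfl fun z _ => ?_
    rw [Net.cross_eq]
    split_ifs
    · field_simp
    · simp
  have e2 : ∑ ω, G.fk p q ω * G.cross ω = ρ * A true / (A false + ρ * A true) := by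
    simp only [hfk]
    have hA2 : ρ * A true / (A false + ρ * A true) =
        ∑ z, ρ * (if G.bit z = true then u z else 0) / (A false + ρ * A true) := by
      rw [← sum_div, ← mul_sum]
      rfl
    rw [hA2]
    refine sum_congr rfl fun z _ => ?_
    rw [Net.cross_eq]
    split_ifs
    · field_simp
    · simp
  have e3 : ∑ ω, G.fk p q ω * h ω = (S0 + ρ * S1) / (A false + ρ * A true) := by
    simp only [hfk]
    rw [hS1, hS0, mul_sum, ← sum_add_distrib, sum_div]
    refine sum_congr rfl fun z _ => ?_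
    cases G.bit z
    · simp
      field_simp
    · simp
      field_simp
  have hcov : ∑ ω, G.fk p q ω * (G.cross ω * h ω) -
      (∑ ω, G.fk p q ω * G.cross ω) * ∑ ω, G.fk p q ω * h ω =
      par (A false) (ρ * A true) / (A false + ρ * A true) * jump u G.bit A h := by
    rw [e1, e2, e3, hj, par]
    field_simp
    ring
  have hdir : dir (G.fk p q) h = (A false + ρ * A true)⁻¹ *
      dir (fun z => u z * if G.bit z = true then ρ else 1) h := by
    have h5 : G.fk p q = fun ω => (A false + ρ * A true)⁻¹ * bw u G.bit ρ ω := by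
      funext ω
      exact hfk ω
    rw [h5, dir_mul (inv_pos.mpr hZ0).ne']
    rfl
  rw [hcov, ← Real.sqrt_mul (mul_nonneg hc.hC (pow_nonneg hc.hθ N))]
  apply Real.abs_le_sqrt
  rw [hdir, mul_pow]
  set P := par (A false) (ρ * A true) with hP
  set D := dir (fun z => u z * if G.bit z = true then ρ else 1) h with hD
  have hP0 : 0 < P := par_pos h1 (by positivity)
  have hPZ : P ≤ A false + ρ * A true := by
    rw [hP, par, div_le_iff₀ hZ0]
    have hb : 0 < ρ * A true := mul_pos hρ0 hA1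
    have := mul_pos h1 hb
    have h6 := mul_pos h1 h1
    have h7 := mul_pos hb hb
    have h8 : (A false + ρ * A true) * (A false + ρ * A true) = A false * A false +
      2 * (A false * (ρ * A true)) + ρ * A true * (ρ * A true) := by ring
    rw [h8]
    linarith
  have hD0 : 0 ≤ C * θ ^ N * D := le_trans (by positivity) h4
  calc (P / (A false + ρ * A true)) ^ 2 * jump u G.bit A h ^ 2 =
        P / (A false + ρ * A true) * ((A false + ρ * A true)⁻¹ *
          (P * jump u G.bit A h ^ 2)) := by ring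
    _ ≤ 1 * ((A false + ρ * A true)⁻¹ * (C * θ ^ N * D)) := by
        refine mul_le_mul ((div_le_one hZ0).mpr hPZ)
          (mul_le_mul_of_nonneg_left h4 (inv_nonneg.mpr hZ0.le)) (by positivity) zero_le_one
    _ = _ := by ring

lemma MZ_blockD (hc : Decay H p q θ C) {k : ℕ} {K : ℝ} (hK : 0 ≤ K)
    {M : (LEdge (Fin (n + 1)) k → Bool) → ℝ}
    (hM : MZ q K ((H.lattice k).uw p q) (H.lattice k).bit M) {N : ℕ}
    {ι : LEdge (Fin (n + 1)) k → LEdge (Fin (n + 1)) N} (h : IsBlock (Fin (n + 1)) k N ι) :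
    MZ q K ((H.lattice N).uw p q) (H.lattice N).bit (fun ω => M (ω ∘ ι)) := by
  induction h with
  | refl => exact hM
  | step N ι e h ih =>
    exact MZ_embed H (H.lattice N) hc.hp0 hc.hp1 hc.hq hK ih e

lemma MB_blockD (hc : Decay H p q θ C) {k : ℕ} {a b : ℝ}
    {M : (LEdge (Fin (n + 1)) k → Bool) → ℝ}
    (hM : MB q a b ((H.lattice k).uw p q) (H.lattice k).bit M) {N : ℕ}
    {ι : LEdge (Fin (n + 1)) k → LEdge (Fin (n + 1)) N} (h : IsBlock (Fin (n + 1)) k N ι) :
    MB q a b ((H.lattice N).uw p q) (H.lattice N).bit (fun ω => M (ω ∘ ι)) := by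
  induction h with
  | refl => exact hM
  | step N ι e h ih =>
    exact MB_embed H (H.lattice N) hc.hp0 hc.hp1 hc.hq ih e

lemma cprob_memD (hc : Decay H p q θ C) (e : Fin (n + 1)) (b : Bool) :
    0 ≤ cprob H (p / (1 - p)) q e b ∧ cprob H (p / (1 - p)) q e b ≤ 1 := by
  have hx : 0 < p / (1 - p) := hc.x_pos
  have hA := hc.vb_pos' b
  have hv := vb_pos H hx hc.hq
  unfold cprob
  constructor
  · refine div_nonneg (sum_nonneg fun c _ => ?_) hA.le
    split_ifs
    · simpa using (hv c).le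
    · simp
    · exact le_rfl
  · rw [div_le_one hA, aval]
    refine sum_le_sum fun c _ => ?_
    split_ifs
    · simp
    · simpa using (hv c).le
    · exact le_rfl

lemma mbit_absD (hc : Decay H p q θ C) (e : Fin (n + 1)) (c : Fin (n + 1) → Bool) :
    |mbit H (p / (1 - p)) q e c| ≤ 1 := by
  have h := cprob_memD hc e (H.bit c)
  unfold mbit
  rw [abs_le]
  split_ifs <;> constructor <;> linarith [h.1, h.2]

lemma mbit_meanD (hc : Decay H p q θ C) (e : Fin (n + 1)) (ρ : ℝ) :
    ∑ c, bw (H.vb (p / (1 - p)) q) H.bit ρ c * mbit H (p / (1 - p)) q e c = 0 := by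
  set x := p / (1 - p) with hxd
  have hA : ∀ b, aval (H.vb x q) H.bit b ≠ 0 := fun b => (hc.vb_pos' b).ne'
  have key : ∀ b : Bool, ∑ c, (if H.bit c = b then H.vb x q c *
      ((if c e = true then 1 else 0) - cprob H x q e b) else 0) = 0 := by
    intro b
    have h1 : ∀ c, (if H.bit c = b then H.vb x q c *
        ((if c e = true then 1 else 0) - cprob H x q e b) else 0) =
        (if H.bit c = b then H.vb x q c * (if c e = true then 1 else 0) else 0) -
          (if H.bit c = b then H.vb x q c else 0) * cprob H x q e b := by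
      intro c
      split_ifs <;> ring
    simp only [h1]
    rw [sum_sub_distrib, ← sum_mul]
    have h2 : (∑ c, if H.bit c = b then H.vb x q c else 0) = aval (H.vb x q) H.bit b := rfl
    rw [h2, cprob, mul_div_cancel₀ _ (hA b), sub_self]
  have h3 : ∀ c, bw (H.vb x q) H.bit ρ c * mbit H x q e c =
      ρ * (if H.bit c = true then H.vb x q c *
        ((if c e = true then 1 else 0) - cprob H x q e true) else 0) +
      (if H.bit c = false then H.vb x q c *
        ((if c e = true then 1 else 0) - cprob H x q e false) else 0) := by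
    intro c
    unfold bw mbit
    cases H.bit c <;> simp
    ring
  simp only [h3]
  rw [sum_add_distrib, ← mul_sum, key, key]
  ring

/-- The `H^{-1}` bound for the block crossings, uniformly in the volume. -/
lemma HM_blockD (hc : Decay H p q θ C) (hθ1 : θ < 1) :
    ∃ B : ℝ, 0 ≤ B ∧ ∀ (d k N : ℕ) (ι : LEdge (Fin (n + 1)) k → LEdge (Fin (n + 1)) N),
      IsBlock (Fin (n + 1)) k N ι → N = k + d →
      HM (H.lattice N) p q (fun ω => (H.lattice k).cross (ω ∘ ι)) (B * √(θ ^ k)) := by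
  obtain ⟨K, hK, hMZ⟩ := exists_MZ hc.hq (vb_pos H hc.x_pos hc.hq) H.bit
  have hθ := hc.hθ
  have hC := hc.hC
  have hs1 : √θ < 1 := by
    rw [Real.sqrt_lt' one_pos]
    simpa using hθ1
  have hs0 : 0 ≤ √θ := Real.sqrt_nonneg θ
  have hpow : ∀ k : ℕ, √(θ ^ k) = √θ ^ k := fun k => by
    rw [Real.sqrt_eq_iff_mul_self_eq (by positivity) (by positivity), ← mul_pow,
      Real.mul_self_sqrt hθ]
  have hden : 0 < 1 - √θ := by linarith
  set B : ℝ := √(K * C) / (1 - √θ) + √C with hB
  have hB0 : 0 ≤ √(K * C) / (1 - √θ) := div_nonneg (Real.sqrt_nonneg _) hden.le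
  have hC0 : 0 ≤ √C := Real.sqrt_nonneg C
  refine ⟨B, by positivity, fun d => ?_⟩
  induction d with
  | zero =>
    intro k N ι hι hN
    obtain rfl : N = k := by omega
    have h1 := eq_of_heq (hι.eq_id rfl)
    subst h1
    intro h
    refine (HM_topD hc N h).trans ?_
    have h2 : 0 ≤ √(θ ^ N) := Real.sqrt_nonneg _
    have h3 : √(C * θ ^ N) ≤ B * √(θ ^ N) := by
      rw [Real.sqrt_mul hC]
      exact mul_le_mul_of_nonneg_right (by rw [hB]; linarith) h2
    exact mul_le_mul_of_nonneg_right h3 (Real.sqrt_nonneg _)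
  | succ d ih =>
    intro k N ι hι hN
    obtain ⟨e, κ, hκ, hικ⟩ := hι.peel (by omega)
    have h1 := ih (k + 1) N κ hκ (by omega)
    have h2 : MZ q (K * (C * θ ^ k)) ((H.lattice (k + 1)).uw p q) (H.lattice (k + 1)).bit
        (fun ω => mbit H (p / (1 - p)) q e ((H.lattice k).bits ω)) :=
      MZ_lift H (H.lattice k) hc.hp0 hc.hp1 hc.hq (hc.A_pos k) (hc.fix k) (hc.cert k) hK
        (hMZ _ (mbit_absD hc e) fun ρ _ => mbit_meanD hc e ρ)
    have hKθ : 0 ≤ K * (C * θ ^ k) := by positivity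
    have h3 := HM_of_MZ hKθ (MZ_blockD hc hKθ h2 hκ) hc.hp0 hc.hp1 hc.hq
    set α := cprob H (p / (1 - p)) q e with hα
    have h4 := HM_lin (a := α true - α false) (c := α false) h3 h1 (by
      have c1 := cprob_memD hc e true
      have c0 := cprob_memD hc e false
      rw [abs_le]
      constructor <;> linarith [c1.1, c1.2, c0.1, c0.2]) hc.hp0 hc.hp1 hc.hq
    have h5 : (fun ω : LEdge (Fin (n + 1)) N → Bool => (H.lattice k).cross (ω ∘ ι)) =
        fun ω => (fun ω : LEdge (Fin (n + 1)) N → Bool =>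
          (fun ω => mbit H (p / (1 - p)) q e ((H.lattice k).bits ω)) (ω ∘ κ)) ω +
          (α false + (α true - α false) * (H.lattice (k + 1)).cross (ω ∘ κ)) := by
      funext ω
      have h6 : (H.lattice k).cross (ω ∘ ι) =
          if (H.lattice k).bits (ω ∘ κ : Fin (n + 1) × LEdge (Fin (n + 1)) k → Bool) e = true
            then 1 else 0 := by
        rw [Net.cross_eq]
        have h7 : ω ∘ ι = fun f => (ω ∘ κ : Fin (n + 1) × LEdge (Fin (n + 1)) k → Bool) (e, f) := by
          funext x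
          show ω (ι x) = ω (κ (e, x))
          rw [hικ]
        rw [h7]
        rfl
      have h8 : (H.lattice (k + 1)).cross (ω ∘ κ) =
          if H.bit ((H.lattice k).bits
            (ω ∘ κ : Fin (n + 1) × LEdge (Fin (n + 1)) k → Bool)) = true then 1 else 0 := by
        rw [Net.cross_eq]
        have h9 := Net.bit_subst H (H.lattice k)
          (ω ∘ κ : Fin (n + 1) × LEdge (Fin (n + 1)) k → Bool)
        have h10 : (H.lattice (k + 1)).bit (ω ∘ κ) = (H.subst (H.lattice k)).bit
          (ω ∘ κ : Fin (n + 1) × LEdge (Fin (n + 1)) k → Bool) := rfl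
        rw [h10, h9]
      rw [h6, h8]
      simp only [mbit]
      rw [← hα]
      cases H.bit ((H.lattice k).bits
            (ω ∘ κ : Fin (n + 1) × LEdge (Fin (n + 1)) k → Bool)) <;> simp
    rw [h5]
    intro h
    refine (h4 h).trans (mul_le_mul_of_nonneg_right ?_ (Real.sqrt_nonneg _))
    rw [← mul_assoc, Real.sqrt_mul (mul_nonneg hK hC), hpow, hpow, pow_succ]
    have h6 : √(K * C) = (B - √C) * (1 - √θ) := by
      rw [hB]
      field_simp
      ring
    rw [h6]
    have h7 : 0 ≤ √θ ^ k := pow_nonneg hs0 k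
    have h8 : (B - √C) * (1 - √θ) * √θ ^ k + B * (√θ ^ k * √θ) =
        B * √θ ^ k - √C * (1 - √θ) * √θ ^ k := by ring
    rw [h8]
    have h9 : 0 ≤ √C * (1 - √θ) * √θ ^ k := by positivity
    linarith

end tower

section general

variable {I : Type} [Finite I] {m : ℕ} {H : Net I (Fin m)} {p q θ C : ℝ}

/-- Noise sensitivity of the block crossings, uniformly in the volume. -/
theorem sensD (hc : Decay H p q θ C) (hθ1 : θ < 1) :
    ∃ B : ℝ, ∀ (k N : ℕ) (ι : LEdge (Fin m) k → LEdge (Fin m) N),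
      IsBlock (Fin m) k N ι → ∀ t : ℝ, 0 < t →
      0 ≤ autoCov ((H.lattice N).fk p q) t (fun ω => (H.lattice k).cross (ω ∘ ι)) ∧
      autoCov ((H.lattice N).fk p q) t (fun ω => (H.lattice k).cross (ω ∘ ι)) ≤
        B * θ ^ k / t := by
  obtain ⟨n, rfl⟩ : ∃ n, m = n + 1 := ⟨m - 1, by have := hc.hk; omega⟩
  obtain ⟨B, hB, hb⟩ := HM_blockD hc hθ1
  refine ⟨B ^ 2, fun k N ι hι t ht => ?_⟩
  have hpos : ∀ ω, 0 < (H.lattice N).fk p q ω := fun ω => fk_pos hc.hp0 hc.hp1 hc.hq ω
  have hsum : ∑ ω, (H.lattice N).fk p q ω = 1 := fk_sum hc.hp0 hc.hp1 hc.hq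
  refine ⟨autoCov_nonneg hpos hsum _ t, ?_⟩
  have hθk : 0 ≤ θ ^ k := pow_nonneg hc.hθ k
  refine autoCov_le hpos hsum _ (by positivity) (fun h => ?_) ht
  have h1 := hb (N - k) k N ι hι (by have := hι.le; omega) h
  rw [← sq_abs]
  have hd : 0 ≤ dir ((H.lattice N).fk p q) h := dir_nonneg (fun ω => (hpos ω).le) h
  calc _ ≤ (B * √(θ ^ k) * √(dir ((H.lattice N).fk p q) h)) ^ 2 :=
        pow_le_pow_left₀ (abs_nonneg _) h1 2
    _ = _ := by
        rw [mul_pow, mul_pow, Real.sq_sqrt hθk, Real.sq_sqrt hd]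

/-- Bounds for the crossing probabilities of the blocks. -/
theorem cross_boundsD (hc : Decay H p q θ C) {a b : ℝ}
    (hab : ∀ ρ : ℝ, (ρ = 1 ∨ ρ = q⁻¹) → a ≤ ρ * (p / (1 - p)) / (1 + ρ * (p / (1 - p))) ∧
      ρ * (p / (1 - p)) / (1 + ρ * (p / (1 - p))) ≤ b)
    (k N : ℕ) (ι : LEdge (Fin m) k → LEdge (Fin m) N)
    (hι : IsBlock (Fin m) k N ι) :
    a ≤ ∑ ω, (H.lattice N).fk p q ω * (H.lattice k).cross (ω ∘ ι) ∧
      ∑ ω, (H.lattice N).fk p q ω * (H.lattice k).cross (ω ∘ ι) ≤ b := by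
  obtain ⟨n, rfl⟩ : ∃ n, m = n + 1 := ⟨m - 1, by have := hc.hk; omega⟩
  have hx : 0 < p / (1 - p) := hc.x_pos
  set x := p / (1 - p) with hxd
  have l1 := hc.pos k
  have l2 := hc.fix k
  have h1 : MB q a b ((H.lattice k).uw p q) (H.lattice k).bit (H.lattice k).cross := by
    intro ρ hρ
    have hρ0 : 0 < ρ := by
      have := hc.hq
      rcases hρ with rfl | rfl <;> positivity
    set u := (H.lattice k).uw p q
    set γ := (H.lattice k).bit
    have hZ : ∑ z, bw u γ ρ z = (1 + ρ * x) * aval u γ false := by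
      have h2 : ∑ z, bw u γ ρ z = aval u γ false + ρ * aval u γ true := by
        simp only [aval, mul_sum, ← sum_add_distrib]
        refine sum_congr rfl fun z _ => ?_
        unfold bw
        cases γ z <;> simp [mul_comm]
      rw [h2, l2]
      ring
    have hS : ∑ z, bw u γ ρ z * (H.lattice k).cross z = ρ * x * aval u γ false := by
      have h2 : ∑ z, bw u γ ρ z * (H.lattice k).cross z = ρ * aval u γ true := by
        simp only [aval, mul_sum]
        refine sum_congr rfl fun z _ => ?_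
        rw [Net.cross_eq]
        unfold bw
        split_ifs <;> simp_all [mul_comm]
      rw [h2, l2]
      ring
    obtain ⟨h3, h4⟩ := hab ρ hρ
    have h5 : 0 < 1 + ρ * x := by positivity
    rw [le_div_iff₀ h5] at h3
    rw [div_le_iff₀ h5] at h4
    rw [hZ, hS]
    constructor <;> nlinarith
  have h2 := (MB_blockD hc h1 hι) q⁻¹ (Or.inr rfl)
  have hZ := mass_pos (G := H.lattice N) hc.hp0 hc.hp1 hc.hq
  have h3 : ∑ ω, (H.lattice N).fk p q ω * (H.lattice k).cross (ω ∘ ι) =
      (∑ z, bw ((H.lattice N).uw p q) (H.lattice N).bit q⁻¹ z * (H.lattice k).cross (z ∘ ι)) /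
        ∑ z, bw ((H.lattice N).uw p q) (H.lattice N).bit q⁻¹ z := by
    simp only [fk_eq (H.lattice N) p hc.hq]
    rw [sum_div]
    refine sum_congr rfl fun ω _ => ?_
    field_simp
  rw [h3, le_div_iff₀ hZ, div_le_iff₀ hZ]
  exact h2

end general

/-- Critical FK-Ising on all diamond lattices. -/
theorem diamond_sens {b r : ℕ} (hb : 2 ≤ b) (hr : 2 ≤ r) {p : ℝ} (hp0 : 0 < p) (hp1 : p < 1)
    (hc : (1 + p / (2 - p)) / (1 - p / (2 - p)) =
      ((1 + (p / (2 - p)) ^ b) / (1 - (p / (2 - p)) ^ b)) ^ r) :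
    ∃ θ C : ℝ, 0 ≤ θ ∧ θ < 1 ∧ ∀ (k N : ℕ) (ι : LEdge (Fin (r * b)) k → LEdge (Fin (r * b)) N),
      IsBlock (Fin (r * b)) k N ι →
      (p / (2 - p) ≤ ∑ ω, ((diamond b r).lattice N).fk p 2 ω *
          ((diamond b r).lattice k).cross (ω ∘ ι) ∧
        ∑ ω, ((diamond b r).lattice N).fk p 2 ω *
          ((diamond b r).lattice k).cross (ω ∘ ι) ≤ p) ∧
      ∀ t : ℝ, 0 < t →
      0 ≤ autoCov (((diamond b r).lattice N).fk p 2) t
        (fun ω => ((diamond b r).lattice k).cross (ω ∘ ι)) ∧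
      autoCov (((diamond b r).lattice N).fk p 2) t
        (fun ω => ((diamond b r).lattice k).cross (ω ∘ ι)) ≤ C * θ ^ k / t := by
  obtain ⟨m, rfl⟩ : ∃ m, b = m + 1 := ⟨b - 1, by omega⟩
  obtain ⟨n, rfl⟩ : ∃ n, r = n + 1 := ⟨r - 1, by omega⟩
  obtain ⟨θ, C, hθ1, hD⟩ := diamond_decay (m := m) (n := n) (by omega) (by omega) hp0 hp1 hc
  obtain ⟨B, hB⟩ := sensD hD hθ1
  refine ⟨θ, B, hD.hθ, hθ1, fun k N ι hι => ⟨?_, fun t ht => hB k N ι hι t ht⟩⟩
  refine cross_boundsD hD ?_ k N ι hι
  have h1p : 0 < 1 - p := by linarith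
  have h2p : 0 < 2 - p := by linarith
  have e1 : (1 : ℝ) * (p / (1 - p)) / (1 + 1 * (p / (1 - p))) = p := by
    field_simp
    ring
  have e2 : (2 : ℝ)⁻¹ * (p / (1 - p)) / (1 + 2⁻¹ * (p / (1 - p))) = p / (2 - p) := by
    field_simp
    ring
  have hle : p / (2 - p) ≤ p := by
    rw [div_le_iff₀ h2p]
    nlinarith
  intro ρ hρ
  rcases hρ with rfl | rfl
  · rw [e1]
    exact ⟨hle, le_rfl⟩
  · rw [e2]
    exact ⟨le_rfl, hle⟩

end Pool.Agent.FKH
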