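import Mathlib

/-! Uniqueness of the critical point. -/

open Finset

namespace Pool.Agent.FKH

/-- The logarithm of the quotient of the two sides of the critical equation. -/
noncomputable def GG (b r : ℕ) (t : ℝ) : ℝ :=
  (Real.log (1 + t) - Real.log (1 - t)) -
    r * (Real.log (1 + t ^ b) - Real.log (1 - t ^ b))

lemma GG_deriv {b r : ℕ} (hb : 2 ≤ b) {t : ℝ} (h0 : 0 ≤ t) (h1 : t < 1) :
    HasDerivAt (GG b r) (2 / (1 - t ^ 2) - r * (2 * (b * t ^ (b - 1)) / (1 - (t ^ b) ^ 2))) t := by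
  have hb1 : t ^ b < 1 := pow_lt_one₀ h0 h1 (by omega)
  have hb0 : 0 ≤ t ^ b := pow_nonneg h0 b
  have e1 : HasDerivAt (fun t : ℝ => Real.log (1 + t)) (1 / (1 + t)) t := by
    have := (hasDerivAt_id t).const_add 1
    exact this.log (by simp; linarith)
  have e2 : HasDerivAt (fun t : ℝ => Real.log (1 - t)) (-1 / (1 - t)) t := by
    have := (hasDerivAt_id t).const_sub 1
    exact this.log (by simp; linarith)
  have hp := hasDerivAt_pow b t
  have e3 : HasDerivAt (fun t : ℝ => Real.log (1 + t ^ b)) (b * t ^ (b - 1) / (1 + t ^ b)) t := by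
    have := hp.const_add 1
    exact this.log (by linarith)
  have e4 : HasDerivAt (fun t : ℝ => Real.log (1 - t ^ b)) (-(b * t ^ (b - 1)) / (1 - t ^ b)) t := by
    have := hp.const_sub 1
    exact this.log (by linarith)
  have h2 := (e1.sub e2).sub ((e3.sub e4).const_mul (r : ℝ))
  refine HasDerivAt.congr_deriv h2 ?_
  have n1 : 1 + t ≠ 0 := by linarith
  have n2 : 1 - t ≠ 0 := by linarith
  have n3 : 1 + t ^ b ≠ 0 := by linarith
  have n4 : 1 - t ^ b ≠ 0 := by linarith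
  have n5 : 1 - t ^ 2 ≠ 0 := by
    have : (1 - t ^ 2) = (1 - t) * (1 + t) := by ring
    rw [this]
    exact mul_ne_zero n2 n1
  have n6 : 1 - (t ^ b) ^ 2 ≠ 0 := by
    have : 1 - (t ^ b) ^ 2 = (1 - t ^ b) * (1 + t ^ b) := by ring
    rw [this]
    exact mul_ne_zero n4 n3
  have f1 : 1 / (1 + t) - -1 / (1 - t) = 2 / (1 - t ^ 2) := by
    field_simp
    ring
  have f2 : b * t ^ (b - 1) / (1 + t ^ b) - -(b * t ^ (b - 1)) / (1 - t ^ b) =
      2 * (b * t ^ (b - 1)) / (1 - (t ^ b) ^ 2) := by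
    field_simp
    ring
  rw [f1, f2]

/-- The critical points of `GG`. -/
lemma GG_crit {b r : ℕ} (hb : 2 ≤ b) {t : ℝ} (h0 : 0 < t) (h1 : t < 1)
    (h : 2 / (1 - t ^ 2) - r * (2 * (b * t ^ (b - 1)) / (1 - (t ^ b) ^ 2)) = 0) :
    ∑ i ∈ range b, (t ^ 2) ^ i = r * b * t ^ (b - 1) := by
  have hb1 : t ^ b < 1 := pow_lt_one₀ h0.le h1 (by omega)
  have hb0 : 0 < t ^ b := pow_pos h0 b
  have ht2 : t ^ 2 < 1 := pow_lt_one₀ h0.le h1 (by omega)
  have n5 : 1 - t ^ 2 ≠ 0 := by linarith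
  have n6 : 1 - (t ^ b) ^ 2 ≠ 0 := by nlinarith
  have h2 := geom_sum_mul_neg (t ^ 2) b
  have h3 : (t ^ 2) ^ b = (t ^ b) ^ 2 := by rw [← pow_mul, ← pow_mul, mul_comm]
  rw [h3] at h2
  have h4 : (1 - (t ^ b) ^ 2) = r * b * t ^ (b - 1) * (1 - t ^ 2) := by
    field_simp at h
    linarith
  rw [h4] at h2
  exact mul_right_cancel₀ n5 h2

/-- The quotient is strictly decreasing. -/
lemma quot_anti {b : ℕ} (hb : 2 ≤ b) {s t : ℝ} (h0 : 0 < s) (hst : s < t) (h1 : t < 1) :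
    (∑ i ∈ range b, (t ^ 2) ^ i) * s ^ (b - 1) < (∑ i ∈ range b, (s ^ 2) ^ i) * t ^ (b - 1) := by
  have ht0 : 0 < t := h0.trans hst
  -- pair `i` with `b - 1 - i`
  have key : ∀ x y : ℝ, 2 * ((∑ i ∈ range b, (x ^ 2) ^ i) * y ^ (b - 1)) =
      ∑ i ∈ range b, ((x ^ 2) ^ i + (x ^ 2) ^ (b - 1 - i)) * y ^ (b - 1) := by
    intro x y
    have h2 := sum_range_reflect (fun i => (x ^ 2) ^ i) b
    rw [← sum_mul, sum_add_distrib, h2]
    ring
  have h3 : 2 * ((∑ i ∈ range b, (t ^ 2) ^ i) * s ^ (b - 1)) <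
      2 * ((∑ i ∈ range b, (s ^ 2) ^ i) * t ^ (b - 1)) := by
    rw [key, key]
    have hle : ∀ i ∈ range b, ((t ^ 2) ^ i + (t ^ 2) ^ (b - 1 - i)) * s ^ (b - 1) ≤
        ((s ^ 2) ^ i + (s ^ 2) ^ (b - 1 - i)) * t ^ (b - 1) ∧
        (2 * i ≠ b - 1 → ((t ^ 2) ^ i + (t ^ 2) ^ (b - 1 - i)) * s ^ (b - 1) <
        ((s ^ 2) ^ i + (s ^ 2) ^ (b - 1 - i)) * t ^ (b - 1)) := by
      intro i hi
      rw [mem_range] at hi
      -- difference = (t^k - s^k)(1 - (t s)^k') ... with j = b - 1 - i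
      obtain ⟨j, hj⟩ : ∃ j, b - 1 = i + j := ⟨b - 1 - i, by omega⟩
      have hj' : b - 1 - i = j := by omega
      rw [hj', hj]
      have e1 : ((s ^ 2) ^ i + (s ^ 2) ^ j) * t ^ (i + j) -
          ((t ^ 2) ^ i + (t ^ 2) ^ j) * s ^ (i + j) =
          (s ^ i * t ^ j - s ^ j * t ^ i) * (s ^ i * t ^ i - s ^ j * t ^ j) := by
        rw [← pow_mul, ← pow_mul, ← pow_mul, ← pow_mul, mul_comm 2 i, mul_comm 2 j]
        ring
      have main : ∀ i j : ℕ, i ≤ j → 0 ≤ (s ^ i * t ^ j - s ^ j * t ^ i) *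
          (s ^ i * t ^ i - s ^ j * t ^ j) ∧ (i < j → 0 < (s ^ i * t ^ j - s ^ j * t ^ i) *
          (s ^ i * t ^ i - s ^ j * t ^ j)) := by
        intro i j hij
        obtain ⟨d, rfl⟩ := Nat.exists_eq_add_of_le hij
        have e2 : (s ^ i * t ^ (i + d) - s ^ (i + d) * t ^ i) *
            (s ^ i * t ^ i - s ^ (i + d) * t ^ (i + d)) =
            (s * t) ^ i * (s * t) ^ i * ((t ^ d - s ^ d) * (1 - (s * t) ^ d)) := by
          rw [mul_pow, mul_pow, pow_add, pow_add]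
          ring
        have hst1 : s * t < 1 := by nlinarith
        have hst0 : 0 < s * t := mul_pos h0 ht0
        rw [e2]
        constructor
        · have h5 : 0 ≤ t ^ d - s ^ d := sub_nonneg.mpr (pow_le_pow_left₀ h0.le hst.le d)
          have h6 : 0 ≤ 1 - (s * t) ^ d := sub_nonneg.mpr (pow_le_one₀ hst0.le hst1.le)
          positivity
        · intro hd
          have hd' : d ≠ 0 := by omega
          have h5 : 0 < t ^ d - s ^ d := sub_pos.mpr (pow_lt_pow_left₀ hst h0.le hd')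
          have h6 : 0 < 1 - (s * t) ^ d := sub_pos.mpr (pow_lt_one₀ hst0.le hst1 hd')
          positivity
      have sym : (s ^ i * t ^ j - s ^ j * t ^ i) * (s ^ i * t ^ i - s ^ j * t ^ j) =
          (s ^ j * t ^ i - s ^ i * t ^ j) * (s ^ j * t ^ j - s ^ i * t ^ i) := by ring
      rcases le_total i j with h | h
      · have := main i j h
        constructor
        · linarith [this.1]
        · intro hne
          have := this.2 (by omega)
          linarith
      · have := main j i h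
        rw [← sym] at this
        constructor
        · linarith [this.1]
        · intro hne
          have := this.2 (by omega)
          linarith
    refine sum_lt_sum (fun i hi => (hle i hi).1) ⟨0, by simp; omega, ?_⟩
    exact (hle 0 (by simp; omega)).2 (by omega)
  linarith

/-- Uniqueness of the critical point. -/
lemma crit_unique {b r : ℕ} (hb : 2 ≤ b) {s t : ℝ} (hs0 : 0 < s) (hs1 : s < 1)
    (ht0 : 0 < t) (ht1 : t < 1)
    (hs : (1 + s) / (1 - s) = ((1 + s ^ b) / (1 - s ^ b)) ^ r)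
    (ht : (1 + t) / (1 - t) = ((1 + t ^ b) / (1 - t ^ b)) ^ r) : s = t := by
  have hG : ∀ x : ℝ, 0 < x → x < 1 → (1 + x) / (1 - x) = ((1 + x ^ b) / (1 - x ^ b)) ^ r →
      GG b r x = 0 := by
    intro x hx0 hx1 hx
    have hb1 : x ^ b < 1 := pow_lt_one₀ hx0.le hx1 (by omega)
    have hb0 : 0 < x ^ b := pow_pos hx0 b
    have h2 := congrArg Real.log hx
    rw [Real.log_pow, Real.log_div (by linarith) (by linarith),
      Real.log_div (by linarith) (by linarith)] at h2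
    unfold GG
    linarith
  have hG0 : GG b r 0 = 0 := by
    unfold GG
    simp [zero_pow (show b ≠ 0 by omega)]
  have key : ∀ x y : ℝ, 0 < x → x < y → y < 1 → GG b r x = 0 → GG b r y = 0 → False := by
    intro x y hx hxy hy gx gy
    have hcont : ∀ a c : ℝ, 0 ≤ a → c < 1 → ContinuousOn (GG b r) (Set.Icc a c) := by
      intro a c ha hc z hz
      exact (GG_deriv hb (ha.trans hz.1) (lt_of_le_of_lt hz.2 hc)).continuousAt.continuousWithinAt
    obtain ⟨c1, hc1, hd1⟩ := exists_hasDerivAt_eq_zero (f := GG b r)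
      (f' := fun t => 2 / (1 - t ^ 2) - r * (2 * (b * t ^ (b - 1)) / (1 - (t ^ b) ^ 2))) hx
      (hcont 0 x le_rfl (hxy.trans hy)) (by rw [hG0, gx])
      (fun z hz => GG_deriv hb hz.1.le (hz.2.trans (hxy.trans hy)))
    obtain ⟨c2, hc2, hd2⟩ := exists_hasDerivAt_eq_zero (f := GG b r)
      (f' := fun t => 2 / (1 - t ^ 2) - r * (2 * (b * t ^ (b - 1)) / (1 - (t ^ b) ^ 2))) hxy
      (hcont x y hx.le hy) (by rw [gx, gy])
      (fun z hz => GG_deriv hb (hx.le.trans hz.1.le) (hz.2.trans hy))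
    have h1 := GG_crit hb hc1.1 (hc1.2.trans (hxy.trans hy)) hd1
    have h2 := GG_crit hb (hx.trans hc2.1) (hc2.2.trans hy) hd2
    have h3 := quot_anti hb hc1.1 (hc1.2.trans hc2.1) (hc2.2.trans hy)
    rw [h1, h2] at h3
    linarith
  rcases lt_trichotomy s t with h | h | h
  · exact (key s t hs0 h ht1 (hG s hs0 hs1 hs) (hG t ht0 ht1 ht)).elim
  · exact h
  · exact (key t s ht0 h hs1 (hG t ht0 ht1 ht) (hG s hs0 hs1 hs)).elim

end Pool.Agent.FKH
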